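import Pool.Agent.R3B.StmtsL

/-! # R3B row SHB: the derivative along `(1, 1)` -/

set_option autoImplicit false

namespace Pool.Agent.R3B.H59

open Set Filter Topology MeasureTheory
open Pool.Agent.R3B

theorem shb : ShbStmt := by
  intro ℓ P hP hper hC
  -- the sequence of steps
  have hs0 : ∀ n : ℕ, 0 < 1 / ((n : ℝ) + 1) := fun n => by positivity
  have hst : Tendsto (fun n : ℕ => 1 / ((n : ℝ) + 1)) atTop (𝓝 0) :=
    tendsto_one_div_add_atTop_nhds_zero_nat
  have hsm : ∀ δ : ℝ, 0 < δ → ∀ᶠ n : ℕ in atTop, 1 / ((n : ℝ) + 1) ≤ δ := fun δ hδ =>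
    (hst.eventually (gt_mem_nhds hδ)).mono fun n hn => le_of_lt hn
  -- pointwise limits
  have hlim : ∀ t y : ℝ, 0 ≤ t →
      ∃ L : ℝ, Tendsto (fun n : ℕ => qq P (1 / ((n : ℝ) + 1)) t y) atTop (𝓝 L) := by
    intro t y ht
    apply cauchySeq_tendsto_of_complete
    rw [Metric.cauchySeq_iff']
    intro ε hε
    obtain ⟨δ, hδ, h⟩ := hC (t + 1) (ε / 2) (by linarith) (by linarith)
    obtain ⟨N, hN⟩ := eventually_atTop.1 (hsm δ hδ)
    refine ⟨N, fun n hn => ?_⟩
    rw [Real.dist_eq]
    have := h _ _ t y (hs0 n) (hN n hn) (hs0 N) (hN N le_rfl) ht (by linarith)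
    linarith
  choose! Y hY using hlim
  have hA : ∀ T ε : ℝ, 0 < T → 0 < ε → ∃ δ : ℝ, 0 < δ ∧ ∀ h t y : ℝ, 0 < h → h ≤ δ → 0 ≤ t →
      t ≤ T → |qq P h t y - Y t y| ≤ ε := by
    intro T ε hT hε
    obtain ⟨δ, hδ, h⟩ := hC T ε hT hε
    refine ⟨δ, hδ, fun h' t y h1 h2 h3 h4 => ?_⟩
    have h5 : Tendsto (fun n : ℕ => |qq P h' t y - qq P (1 / ((n : ℝ) + 1)) t y|) atTop
        (𝓝 |qq P h' t y - Y t y|) := (tendsto_const_nhds.sub (hY t y h3)).abs
    refine le_of_tendsto h5 ?_
    filter_upwards [hsm δ hδ] with n hn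
    exact h _ _ t y h1 h2 (hs0 n) hn h3 h4
  have hcont : Continuous (fun z : ℝ × ℝ => Y (max z.1 0) z.2) := by
    apply continuous_of_locally_uniform_approx_of_continuousAt
    intro z u hu
    obtain ⟨ε, hε, hu⟩ := Metric.mem_uniformity_dist.1 hu
    obtain ⟨δ, hδ, h⟩ := hA (|z.1| + 1) (ε / 2) (by positivity) (by linarith)
    refine ⟨{w | w.1 < |z.1| + 1}, ?_, fun w => qq P δ (max w.1 0) w.2, ?_, ?_⟩
    · apply IsOpen.mem_nhds (isOpen_lt continuous_fst continuous_const)
      show z.1 < |z.1| + 1
      have := le_abs_self z.1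
      linarith
    · apply Continuous.continuousAt
      unfold qq
      have h1 : Continuous (fun w : ℝ × ℝ => P (max w.1 0 + δ) (w.2 + δ)) :=
        hP.comp (((continuous_fst.max continuous_const).add continuous_const).prodMk
          (continuous_snd.add continuous_const))
      have h2 : Continuous (fun w : ℝ × ℝ => P (max w.1 0) w.2) :=
        hP.comp ((continuous_fst.max continuous_const).prodMk continuous_snd)
      exact (h1.sub h2).div_const _
    · intro w hw
      apply hu
      rw [Real.dist_eq, abs_sub_comm]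
      have h1 : max w.1 0 ≤ |z.1| + 1 := max_le (le_of_lt hw) (by positivity)
      have := h δ (max w.1 0) w.2 hδ le_rfl (le_max_right _ _) h1
      linarith
  refine ⟨fun t y => Y (max t 0) y, hcont, ?_, ?_⟩
  · intro t y
    have h1 := hY (max t 0) (y + 2 * ℓ) (le_max_right _ _)
    have h2 := hY (max t 0) y (le_max_right _ _)
    have h3 : ∀ h s x : ℝ, qq P h s (x + 2 * ℓ) = qq P h s x := by
      intro h s x
      unfold qq
      rw [hper, show x + 2 * ℓ + h = (x + h) + 2 * ℓ by ring, hper]
    simp only [h3] at h1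
    exact tendsto_nhds_unique h1 h2
  · intro t h y ht hh
    have hF : Continuous (fun s : ℝ => P (t + s) (y + s)) :=
      hP.comp ((continuous_const.add continuous_id).prodMk (continuous_const.add continuous_id))
    have hG : Continuous (fun s : ℝ => Y (max (t + s) 0) (y + s)) :=
      hcont.comp ((continuous_const.add continuous_id).prodMk
        (continuous_const.add continuous_id))
    have key := intervalIntegral.integral_eq_sub_of_hasDeriv_right (a := 0) (b := h)
      (f := fun s : ℝ => P (t + s) (y + s)) (f' := fun s : ℝ => Y (max (t + s) 0) (y + s))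
      hF.continuousOn ?_ (hG.intervalIntegrable _ _)
    · rw [key, add_zero, add_zero]
    · intro x hx
      rw [min_eq_left hh, max_eq_right hh] at hx
      rw [hasDerivWithinAt_iff_tendsto_slope' (by simp)]
      rw [Metric.tendsto_nhds]
      intro ε hε
      obtain ⟨δ, hδ, hh2⟩ := hA (t + h + 1) (ε / 2) (by linarith) (by linarith)
      have hev : ∀ᶠ z in 𝓝[>] x, z < x + δ :=
        mem_nhdsWithin_of_mem_nhds (Iio_mem_nhds (by linarith))
      filter_upwards [hev, self_mem_nhdsWithin] with z hz1 hz2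
      have hz3 : x < z := hz2
      have e1 : slope (fun s : ℝ => P (t + s) (y + s)) x z = qq P (z - x) (t + x) (y + x) := by
        unfold slope qq
        rw [show t + x + (z - x) = t + z by ring, show y + x + (z - x) = y + z by ring,
          vsub_eq_sub, smul_eq_mul, div_eq_inv_mul]
      have hx0 : 0 ≤ t + x := by linarith [hx.1]
      rw [e1, max_eq_left hx0, Real.dist_eq]
      have := hh2 (z - x) (t + x) (y + x) (by linarith) (by linarith) hx0 (by linarith [hx.2])
      linarith

end Pool.Agent.R3B.H59
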